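import Pool.Agent.T9h70.Chd.Main

set_option autoImplicit false

/-!
# The Gyárfás–Sumner conjecture for graphs of bounded chordality

The chordality of a graph is the least `k` such that it is the intersection of `k` chordal graphs on
its vertex set (McKee and Scheinerman). It is at most the boxicity and at most the chromatic number.

Theorem. For every `k` and every forest `F` the class of all `F`-free graphs of chordality at most `k`
is `χ`-bounded.

So the Gyárfás–Sumner conjecture holds for all forests in every class of bounded chordality. As the
chordality is at most the chromatic number, the conjecture for a forest `F` is equivalent to the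
statement that the chordality of the `F`-free graphs is bounded by a function of the clique number.

Proof. Let `G` be the intersection of the chordal graphs `C_1, ..., C_k` and fix a perfect elimination
ordering of every `C_i`. An edge `x y` has a type: for every `i` it is recorded which of `x`, `y` is
earlier in the ordering of `C_i`. It is enough to colour the digraph `D` of the edges of one type. Let
`P` be the set of the `i` for which `x` is earlier than `y` for the arcs `x → y` of `D`, and let `Q` be
the set of the other `i`.

1. If `x → y → z` in `D`, then `x → z`, or `x` and `z` are not adjacent in some `C_i`; say that `x z` is
   separated in `i`. If `i ∈ P` and `z → w`, then `x w` is also separated in `i`; if `i ∈ Q` and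
   `w → x`, then `w z` is separated in `i`.
2. For `s, t ∈ P` let all arcs have level `0`, and let `x → y` have level `j + 1` if there are `N` arcs
   `y → z` of level `j` such that `x z` is separated in `s`, and the `z` are pairwise not adjacent in
   `C_t`. If `x → y` has level `m`, then there is an induced complete tree of depth `m` with root `y`:
   choose the children in the order of a breadth first search. Vertices on a path from the root are not
   adjacent by 1. When the children of `z` are chosen, for every vertex `u` chosen before which is not
   adjacent to `z` in `C_t`, at most one of the `N` candidates is adjacent to `u` in `C_t`, because those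
   candidates precede `u` and so form a clique of `C_t`. In the same way `s, t ∈ Q` with all arcs
   reversed. So if `G` is `F`-free, then all levels are bounded.
3. For an arc `x → y` let `S(x, y)` be the set of the `z` with `y → z`, such that `x z` is separated in
   some `s ∈ P` and for all `t ∈ P` the level of `y → z` is at least the level of `x → y`. By Ramsey's
   theorem and 2 its size is bounded in terms of the clique number. In the same way for an arc `y → z`
   the set `T(y, z)` of the `x` with `x → y`, such that `x z` is separated in some `s ∈ Q` and the
   (reversed) levels of `x → y` are at least those of `y → z`.
4. If the chromatic number of `D` is large, then there is a path `v_0 → v_1 → ... → v_n` such that the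
   colour of the pair `(v_a, v_b)` depends only on `b - a`, where the colour consists of all levels, and
   such that `v_c` is not in `S(v_a, v_b)` and `v_a` is not in `T(v_b, v_c)` for `a < b < c`. This
   follows by iterated line digraphs: taking the line digraph at most takes the logarithm of the
   chromatic number, and the paths which hit the small sets can be removed at the cost of a bounded
   factor; at the end two consecutive paths have the same colours.
5. On this path `v_a → v_(a + l)` for all powers of two `l`, by doubling: the arcs `v_a → v_(a + l)` and
   `v_(a + l) → v_(a + 2 l)` have the same levels, so if `v_a`, `v_(a + 2 l)` were separated, then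
   `v_(a + 2 l)` would be in `S(v_a, v_(a + l))` or `v_a` in `T(v_(a + l), v_(a + 2 l))`. Together with 1
   it follows that the vertices of a long piece of the path are pairwise adjacent, which contradicts the
   bound for the clique number.
-/

namespace Pool.Agent.Results.MP_763321_co.BoundedChordality

/-- `C` is chordal: it has no induced cycle of length at least four. -/
def Chordal {V : Type} (C : SimpleGraph V) : Prop :=
  ∀ n : ℕ, 4 ≤ n → IsEmpty (SimpleGraph.cycleGraph n ↪g C)

/-- `G` has chordality at most `k`: it is the intersection of `k` chordal graphs. -/
def ChordalityLE {V : Type} (k : ℕ) (G : SimpleGraph V) : Prop :=
  ∃ C : Fin k → SimpleGraph V, (∀ i, Chordal (C i)) ∧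
    ∀ x y, x ≠ y → (G.Adj x y ↔ ∀ i, (C i).Adj x y)

theorem result (k m : ℕ) (F : SimpleGraph (Fin m)) (hF : F.IsAcyclic) :
    ∃ f : ℕ → ℕ, ∀ (V : Type) [Finite V] (G : SimpleGraph V), ChordalityLE k G →
      ¬ F.IsIndContained G → G.chromaticNumber ≤ f G.cliqueNum := by
  obtain ⟨f, hf⟩ := Pool.Agent.T9h70.Chd.gs_chordal k m F hF
  refine ⟨f, fun V _ G hG hFG => ?_⟩
  obtain ⟨C, hC, hadj⟩ := hG
  exact (hf V G C hC hadj hFG).chromaticNumber_le

end Pool.Agent.Results.MP_763321_co.BoundedChordality
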