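import Pool.Agent.T9h70.Chd.Ram
import Pool.Agent.N471.EL.Main

set_option autoImplicit false

namespace Pool.Agent.T9h70.Chd

open Finset

variable {V : Type}

/-- the levels: an edge `x → y` of level `j + 1` has many `y → z` of level `j` which are separated
from `x` in `Cs` and pairwise separated in `Ct` -/
def Lev (D : V → V → Prop) (Cs Ct : SimpleGraph V) (N : ℕ) : ℕ → V → V → Prop
  | 0, x, y => D x y
  | j + 1, x, y => D x y ∧ ∃ Z : Finset V, N ≤ Z.card ∧
      (∀ z ∈ Z, Lev D Cs Ct N j y z ∧ ¬ Cs.Adj x z) ∧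
      ∀ z ∈ Z, ∀ z' ∈ Z, z ≠ z' → ¬ Ct.Adj z z'

variable {D : V → V → Prop} {Cs Ct G : SimpleGraph V} {N : ℕ}

theorem Lev.d : ∀ {j : ℕ} {x y : V}, Lev D Cs Ct N j x y → D x y
  | 0, _, _, h => h
  | _ + 1, _, _, h => h.1

/-! ### the heap -/

/-- the depth in the `q`-ary heap -/
def dep (q : ℕ) (n : ℕ) : ℕ := if h : n = 0 then 0 else dep q ((n - 1) / q) + 1
termination_by n
decreasing_by exact lt_of_le_of_lt (Nat.div_le_self _ _) (by omega)

theorem dep_zero (q : ℕ) : dep q 0 = 0 := by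
  rw [dep, dif_pos rfl]

theorem dep_succ (q n : ℕ) : dep q (n + 1) = dep q (n / q) + 1 := by
  rw [dep, dif_neg (Nat.succ_ne_zero n), Nat.add_sub_cancel]

/-- the parent in the `q`-ary heap -/
def par (q n : ℕ) : ℕ := (n - 1) / q

theorem par_lt (q n : ℕ) (hn : 1 ≤ n) : par q n < n :=
  lt_of_le_of_lt (Nat.div_le_self _ _) (by omega)

theorem par_mono (q : ℕ) {m n : ℕ} (h : m ≤ n) : par q m ≤ par q n :=
  Nat.div_le_div_right (by omega)

theorem dep_par (q n : ℕ) (hn : 1 ≤ n) : dep q n = dep q (par q n) + 1 := by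
  obtain ⟨k, rfl⟩ : ∃ k, n = k + 1 := ⟨n - 1, by omega⟩
  rw [dep_succ, par, Nat.add_sub_cancel]

/-- the vertex of the parent of the node `i` -/
def gp (q : ℕ) (x0 : V) (g : ℕ → V) (i : ℕ) : V := if i = 0 then x0 else g (par q i)

/-- the relation between the nodes `i < j` -/
def St (D : V → V → Prop) (Cs Ct : SimpleGraph V) (fs : V → ℕ) (q : ℕ) (g : ℕ → V) (i j : ℕ) :
    Prop :=
  (par q j = i ∧ D (g i) (g j)) ∨
  (i < par q j ∧ fs (g i) < fs (g j) ∧ ¬ Cs.Adj (g i) (g j)) ∨
  (par q j ≠ i ∧ g i ≠ g j ∧ ¬ Ct.Adj (g i) (g j))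

/-- a large level gives an induced heap -/
theorem exists_heap (hD : ∀ x y, D x y → G.Adj x y) {fs ft : V → ℕ}
    (hs : PEO Cs fs) (ht : PEO Ct ft) (hGs : G ≤ Cs) (hGt : G ≤ Ct)
    (hfs : ∀ x y, D x y → fs x < fs y) (hft : ∀ x y, D x y → ft x < ft y) (q m : ℕ)
    {x0 y0 : V} (h0 : Lev D Cs Ct N m x0 y0) : ∀ n, n < N → ∃ g : ℕ → V,
      g 0 = y0 ∧ ∀ j, 1 ≤ j → j ≤ n → dep q j ≤ m → ∀ i < j, dep q i ≤ m →
        St D Cs Ct fs q g i j := by
  classical
  -- the sets of children
  let ZZ : ℕ → V → V → Finset V := fun j x y =>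
    if h : ∃ Z : Finset V, N ≤ Z.card ∧ (∀ z ∈ Z, Lev D Cs Ct N (j - 1) y z ∧ ¬ Cs.Adj x z) ∧
      ∀ z ∈ Z, ∀ z' ∈ Z, z ≠ z' → ¬ Ct.Adj z z' then h.choose else ∅
  have hZZ : ∀ j x y, 1 ≤ j → Lev D Cs Ct N j x y → N ≤ (ZZ j x y).card ∧
      (∀ z ∈ ZZ j x y, Lev D Cs Ct N (j - 1) y z ∧ ¬ Cs.Adj x z) ∧
      ∀ z ∈ ZZ j x y, ∀ z' ∈ ZZ j x y, z ≠ z' → ¬ Ct.Adj z z' := by
    intro j x y hj hl
    obtain ⟨j, rfl⟩ : ∃ i, j = i + 1 := ⟨j - 1, by omega⟩
    have h : ∃ Z : Finset V, N ≤ Z.card ∧ (∀ z ∈ Z, Lev D Cs Ct N (j + 1 - 1) y z ∧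
        ¬ Cs.Adj x z) ∧ ∀ z ∈ Z, ∀ z' ∈ Z, z ≠ z' → ¬ Ct.Adj z z' := hl.2
    simp only [ZZ, dif_pos h]
    exact h.choose_spec
  suffices H : ∀ n, n < N → ∃ g : ℕ → V, g 0 = y0 ∧
      (∀ j, 1 ≤ j → j ≤ n → dep q j ≤ m →
        g j ∈ ZZ (m - dep q (par q j)) (gp q x0 g (par q j)) (g (par q j))) ∧
      (∀ j, j ≤ n → dep q j ≤ m → Lev D Cs Ct N (m - dep q j) (gp q x0 g j) (g j)) ∧
      (∀ j, 1 ≤ j → j ≤ n → dep q j ≤ m → ∀ i < j, dep q i ≤ m → St D Cs Ct fs q g i j) by
    intro n hn
    obtain ⟨g, g1, -, -, g4⟩ := H n hn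
    exact ⟨g, g1, g4⟩
  intro n
  induction n with
  | zero =>
    intro _
    refine ⟨fun _ => y0, rfl, fun j h1 h2 => by omega, fun j hj _ => ?_, fun j h1 h2 => by omega⟩
    obtain rfl : j = 0 := by omega
    rw [dep_zero, gp, if_pos rfl, Nat.sub_zero]
    exact h0
  | succ n ih =>
    intro hn
    obtain ⟨g, g1, g2, g3, g4⟩ := ih (by omega)
    by_cases hdep : dep q (n + 1) ≤ m
    swap
    · refine ⟨g, g1, fun j h1 h2 h3 => ?_, fun j h2 h3 => ?_, fun j h1 h2 h3 => ?_⟩
      · have : j ≠ n + 1 := by rintro rfl; exact hdep h3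
        exact g2 j h1 (by omega) h3
      · have : j ≠ n + 1 := by rintro rfl; exact hdep h3
        exact g3 j (by omega) h3
      · have : j ≠ n + 1 := by rintro rfl; exact hdep h3
        exact g4 j h1 (by omega) h3
    set p := par q (n + 1) with hp
    have hpn : p ≤ n := Nat.lt_succ_iff.1 (par_lt q (n + 1) (by omega))
    have hdp : dep q (n + 1) = dep q p + 1 := dep_par q (n + 1) (by omega)
    have hpl := g3 p hpn (by omega)
    obtain ⟨z1, z2, z3⟩ := hZZ _ _ _ (by omega) hpl
    set Z := ZZ (m - dep q p) (gp q x0 g p) (g p) with hZ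
    -- every node excludes at most one candidate
    have hex : ∀ i ≤ n, ∃ w : V, ∀ v ∈ Z, v ≠ w → v ≠ g i ∧
        ((i ≠ p ∧ dep q i ≤ m ∧ (St D Cs Ct fs q g i p ∧ i < p ∨ St D Cs Ct fs q g p i ∧ p < i)) →
        (i < p ∧ (par q p = i ∨ (i < par q p ∧ fs (g i) < fs (g p) ∧ ¬ Cs.Adj (g i) (g p)))) ∨
        ¬ Ct.Adj (g i) v) := by
      intro i hi
      have hsib : p < i → par q i = p → g i ∈ Z ∨ ¬ dep q i ≤ m := by
        intro h1 h2
        by_cases h3 : dep q i ≤ m
        · left
          have := g2 i (by omega) hi h3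
          rw [h2] at this
          exact this
        · exact Or.inr h3
      by_cases hT : g i ≠ g p ∧ ¬ Ct.Adj (g i) (g p)
      · by_cases hw : ∃ w ∈ Z, Ct.Adj (g i) w
        · obtain ⟨w, hw1, hw2⟩ := hw
          refine ⟨w, fun v hv hvw => ?_⟩
          have hpv : ∀ v ∈ Z, Ct.Adj (g p) v ∧ ft (g p) < ft v := fun v hv =>
            ⟨hGt (hD _ _ (z2 v hv).1.d), hft _ _ (z2 v hv).1.d⟩
          have key : ∀ v ∈ Z, Ct.Adj (g i) v → ft v < ft (g i) := by
            intro v hv hadj
            by_contra hcon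
            have hne : ft (g i) ≠ ft v := fun h => hadj.ne (ht.inj h)
            exact hT.2 (ht.cl _ _ v (by omega) (hpv v hv).2 hadj (hpv v hv).1 hT.1)
          have hnadj : ¬ Ct.Adj (g i) v := by
            intro hadj
            exact z3 v hv w hw1 hvw (ht.cl v w (g i) (key v hv hadj) (key w hw1 hw2) hadj.symm
              hw2.symm hvw)
          refine ⟨?_, fun _ => Or.inr hnadj⟩
          rintro rfl
          exact hT.2 (hpv _ hv).1.symm
        · push Not at hw
          refine ⟨g i, fun v hv hvw => ⟨hvw, fun _ => Or.inr (hw v hv)⟩⟩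
      · refine ⟨g i, fun v hv hvw => ⟨hvw, ?_⟩⟩
        rintro ⟨h1, h2, h3 | h3⟩
        · left
          refine ⟨h3.2, ?_⟩
          rcases h3.1 with h | h | h
          · exact Or.inl h.1
          · exact Or.inr h
          · exact absurd ⟨h.2.1, h.2.2⟩ hT
        · rcases h3.1 with h | h | h
          · right
            rcases hsib h3.2 h.1 with h5 | h5
            · exact z3 _ h5 v hv hvw.symm
            · exact absurd h2 h5
          · exfalso
            have h6 : par q i ≤ par q (n + 1) := par_mono q (by omega)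
            omega
          · exact absurd ⟨fun h5 => h.2.1 h5.symm, fun h5 => h.2.2 h5.symm⟩ hT
    have : Nonempty V := ⟨x0⟩
    choose! w hw using hex
    obtain ⟨v, hvZ, hvw⟩ : ∃ v ∈ Z, v ∉ (range (n + 1)).image w := by
      by_contra hcon
      push Not at hcon
      have h1 : Z.card ≤ ((range (n + 1)).image w).card := card_le_card hcon
      have h2 := h1.trans card_image_le
      rw [card_range] at h2
      omega
    have hvn : ∀ i ≤ n, v ≠ w i := fun i hi h =>
      hvw (h ▸ mem_image_of_mem w (mem_range.2 (by omega)))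
    -- the new function
    set g' : ℕ → V := fun i => if i = n + 1 then v else g i with hg'
    have e1 : ∀ i ≤ n, g' i = g i := fun i hi => if_neg (by omega)
    have e2 : g' (n + 1) = v := if_pos rfl
    have e3 : ∀ i ≤ n, gp q x0 g' i = gp q x0 g i := by
      intro i hi
      unfold gp
      split_ifs with h
      · rfl
      · exact e1 _ ((par_lt q i (by omega)).le.trans hi)
    have e4 : gp q x0 g' (n + 1) = g p := by
      unfold gp
      rw [if_neg (Nat.succ_ne_zero n)]
      exact e1 p hpn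
    have hDv : D (g p) v := (z2 v hvZ).1.d
    refine ⟨g', by rw [e1 0 (Nat.zero_le n), g1], fun j h1 h2 h3 => ?_, fun j h2 h3 => ?_,
      fun j h1 h2 h3 i hij hi => ?_⟩
    · rcases Nat.lt_or_eq_of_le h2 with h | h
      · have hpj := par_lt q j h1
        rw [e1 j (by omega), e1 (par q j) (by omega), e3 (par q j) (by omega)]
        exact g2 j h1 (by omega) h3
      · subst h
        rw [e2, ← hp, e1 p hpn, e3 p hpn]
        exact hvZ
    · rcases Nat.lt_or_eq_of_le h2 with h | h
      · rw [e1 j (by omega), e3 j (by omega)]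
        exact g3 j (by omega) h3
      · subst h
        rw [e2, e4, hdp, Nat.sub_add_eq]
        exact (z2 v hvZ).1
    · rcases Nat.lt_or_eq_of_le h2 with h | h
      · have := g4 j h1 (by omega) h3 i hij hi
        unfold St at this ⊢
        rw [e1 j (by omega), e1 i (by omega)]
        exact this
      · subst h
        unfold St
        rw [e2, e1 i (by omega), ← hp]
        have hi' : i ≤ n := by omega
        by_cases hip : i = p
        · subst hip
          exact Or.inl ⟨rfl, hDv⟩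
        · obtain ⟨c1, c2⟩ := hw i hi' v hvZ (hvn i hi')
          rcases lt_or_gt_of_ne hip with hlt | hlt
          · rcases c2 ⟨hip, hi, Or.inl ⟨g4 p (by omega) hpn (by omega) i hlt hi, hlt⟩⟩ with
              ⟨-, h5⟩ | h5
            · right; left
              refine ⟨hlt, ?_⟩
              rcases h5 with h5 | h5
              · have h6 : gp q x0 g p = g i := by
                  unfold gp
                  rw [if_neg (by omega), h5]
                have h7 := (z2 v hvZ).2
                rw [h6] at h7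
                have h8 : D (g i) (g p) := by
                  rw [← h6]
                  exact hpl.d
                exact ⟨(hfs _ _ h8).trans (hfs _ _ hDv), h7⟩
              · refine ⟨h5.2.1.trans (hfs _ _ hDv), fun h9 => h5.2.2 ?_⟩
                refine hs.cl (g i) (g p) v (h5.2.1.trans (hfs _ _ hDv)) (hfs _ _ hDv) h9
                  (hGs (hD _ _ hDv)) fun h10 => ?_
                rw [h10] at h5
                exact lt_irrefl _ h5.2.1
            · exact Or.inr (Or.inr ⟨Ne.symm hip, Ne.symm c1, h5⟩)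
          · rcases c2 ⟨hip, hi, Or.inr ⟨g4 i (by omega) hi' hi p hlt (by omega), hlt⟩⟩ with
              ⟨h5, -⟩ | h5
            · omega
            · exact Or.inr (Or.inr ⟨Ne.symm hip, Ne.symm c1, h5⟩)

/-! ### a tree in the heap -/

/-- the place of the node `j` of the tree with the parents `p` in the heap -/
def idx (p : ℕ → ℕ) (M : ℕ) (j : ℕ) : ℕ :=
  if h : p j < j then (M + 1) * idx p M (p j) + j + 1 else 0
termination_by j
decreasing_by exact h

theorem idx_zero (p : ℕ → ℕ) (M : ℕ) : idx p M 0 = 0 := by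
  rw [idx, dif_neg (by omega)]

theorem idx_pos (p : ℕ → ℕ) (M : ℕ) (hp : ∀ j, 1 ≤ j → p j < j) (j : ℕ) (hj : 1 ≤ j) :
    idx p M j = (M + 1) * idx p M (p j) + j + 1 := by
  rw [idx, dif_pos (hp j hj)]

theorem par_idx (p : ℕ → ℕ) (M : ℕ) (hp : ∀ j, 1 ≤ j → p j < j) (j : ℕ) (hj : 1 ≤ j)
    (hjM : j ≤ M) : par (M + 1) (idx p M j) = idx p M (p j) := by
  rw [idx_pos p M hp j hj, par, Nat.add_sub_cancel, Nat.mul_add_div (by omega),
    Nat.div_eq_of_lt (by omega), Nat.add_zero]

theorem dep_idx (p : ℕ → ℕ) (M : ℕ) (hp : ∀ j, 1 ≤ j → p j < j) : ∀ j, j ≤ M →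
    dep (M + 1) (idx p M j) ≤ j := by
  intro j
  induction j using Nat.strong_induction_on with
  | _ j ih =>
    intro hjM
    rcases Nat.eq_zero_or_pos j with rfl | hj
    · rw [idx_zero, dep_zero]
    · have h1 := hp j hj
      rw [dep_par _ _ (by rw [idx_pos p M hp j hj]; omega), par_idx p M hp j hj hjM]
      have := ih (p j) h1 (by omega)
      omega

theorem idx_inj (p : ℕ → ℕ) (M : ℕ) (hp : ∀ j, 1 ≤ j → p j < j) (i j : ℕ) (hi : i ≤ M)
    (hj : j ≤ M) (h : idx p M i = idx p M j) : i = j := by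
  rcases Nat.eq_zero_or_pos i with rfl | hi0 <;> rcases Nat.eq_zero_or_pos j with rfl | hj0
  · rfl
  · rw [idx_zero, idx_pos p M hp j hj0] at h
    omega
  · rw [idx_zero, idx_pos p M hp i hi0] at h
    omega
  · rw [idx_pos p M hp i hi0, idx_pos p M hp j hj0] at h
    have h1 : ((M + 1) * idx p M (p i) + i) % (M + 1) = ((M + 1) * idx p M (p j) + j) % (M + 1) := by
      rw [Nat.succ.inj h]
    rwa [Nat.mul_add_mod, Nat.mul_add_mod, Nat.mod_eq_of_lt (by omega),
      Nat.mod_eq_of_lt (by omega)] at h1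

/-- a large level gives an induced tree -/
theorem tree_of_lev (M : ℕ) (T : SimpleGraph (Fin (M + 1))) (hT : T.IsTree) : ∃ N : ℕ,
    ∀ (V : Type) (D : V → V → Prop) (Cs Ct G : SimpleGraph V) (fs ft : V → ℕ),
      (∀ x y, D x y → G.Adj x y) → PEO Cs fs → PEO Ct ft → G ≤ Cs → G ≤ Ct →
      (∀ x y, D x y → fs x < fs y) → (∀ x y, D x y → ft x < ft y) → ¬ T.IsIndContained G →
      ∀ x y, ¬ Lev D Cs Ct N M x y := by
  classical
  obtain ⟨f, p, f1, f2, f3, f4⟩ := Pool.Agent.N471.EL.tree_enum M (Fin (M + 1)) T hT (by simp)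
  set N := (∑ j ∈ range (M + 1), idx p M j) + 1 with hN
  have hidx : ∀ j ≤ M, idx p M j ≤ N - 1 := by
    intro j hj
    have : idx p M j ≤ ∑ j ∈ range (M + 1), idx p M j :=
      single_le_sum (f := fun j => idx p M j) (fun _ _ => Nat.zero_le _) (mem_range.2 (by omega))
    omega
  refine ⟨N, fun V D Cs Ct G fs ft hD hs ht hGs hGt hfs hft hTG x y hl => hTG ?_⟩
  obtain ⟨g, -, g2⟩ := exists_heap hD hs ht hGs hGt hfs hft (M + 1) M hl (N - 1) (by omega)
  -- the pairs of nodes
  have key : ∀ i j, idx p M i < idx p M j → i ≤ M → j ≤ M →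
      g (idx p M i) ≠ g (idx p M j) ∧
      (G.Adj (g (idx p M i)) (g (idx p M j)) ↔ par (M + 1) (idx p M j) = idx p M i) := by
    intro i j hij hi hj
    have := g2 (idx p M j) (by omega) (hidx j hj) ((dep_idx p M f3 j hj).trans hj) _ hij
      ((dep_idx p M f3 i hi).trans hi)
    rcases this with h | h | h
    · exact ⟨(hD _ _ h.2).ne, fun _ => h.1, fun _ => hD _ _ h.2⟩
    · refine ⟨fun h1 => ?_, fun h1 => absurd (hGs h1) h.2.2, fun h1 => ?_⟩
      · have := h.2.1
        rw [h1] at this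
        exact lt_irrefl _ this
      · exact absurd h1 (Nat.ne_of_gt h.1)
    · exact ⟨h.2.1, fun h1 => absurd (hGt h1) h.2.2, fun h1 => absurd h1 h.1⟩
  refine ⟨⟨⟨fun v => g (idx p M (f v)), fun u v huv => ?_⟩, fun {u v} => ?_⟩⟩
  · simp only at huv
    rcases lt_trichotomy (idx p M (f u)) (idx p M (f v)) with h | h | h
    · exact absurd huv (key _ _ h (f2 u) (f2 v)).1
    · exact f1 (idx_inj p M f3 _ _ (f2 u) (f2 v) h)
    · exact absurd huv.symm (key _ _ h (f2 v) (f2 u)).1
  · show G.Adj (g (idx p M (f u))) (g (idx p M (f v))) ↔ T.Adj u v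
    have aux : ∀ u v, f u < f v →
        (G.Adj (g (idx p M (f u))) (g (idx p M (f v))) ↔ T.Adj u v) := by
      intro u v huv
      rw [f4 u v huv]
      have hv := f3 (f v) (by omega)
      rcases lt_trichotomy (idx p M (f u)) (idx p M (f v)) with h | h | h
      · rw [(key _ _ h (f2 u) (f2 v)).2, par_idx p M f3 (f v) (by omega) (f2 v)]
        exact ⟨fun h1 => idx_inj p M f3 _ _ (by have := f2 v; omega) (f2 u) h1, fun h1 => by rw [h1]⟩
      · exact absurd (idx_inj p M f3 _ _ (f2 u) (f2 v) h) (by omega)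
      · rw [G.adj_comm, (key _ _ h (f2 v) (f2 u)).2]
        constructor
        · intro h1
          exfalso
          rcases Nat.eq_zero_or_pos (f u) with h2 | h2
          · rw [h2, idx_zero] at h
            omega
          · rw [par_idx p M f3 (f u) h2 (f2 u)] at h1
            have h3 := idx_inj p M f3 _ _ (by have := f3 (f u) h2; have := f2 u; omega) (f2 v) h1
            have := f3 (f u) h2
            omega
        · intro h1
          exfalso
          have h2 := par_idx p M f3 (f v) (by omega) (f2 v)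
          rw [h1] at h2
          have h3 : 1 ≤ idx p M (f v) := by
            rw [idx_pos p M f3 (f v) (by omega)]
            omega
          have := par_lt (M + 1) (idx p M (f v)) h3
          omega
    rcases lt_trichotomy (f u) (f v) with h | h | h
    · exact aux u v h
    · have : u = v := f1 h
      subst this
      exact ⟨fun h' => absurd h' G.irrefl, fun h' => absurd h' T.irrefl⟩
    · rw [G.adj_comm, aux v u h, T.adj_comm]

end Pool.Agent.T9h70.Chd
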