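import Pool.Agent.T9h70.Chd.Path
import Pool.Agent.T9h70.Chd.Tree
import Pool.Agent.H367R3.GSForest

set_option autoImplicit false

namespace Pool.Agent.T9h70.Chd

open Finset Pool.Agent.T9h70.Box

variable {V : Type} {k : ℕ}

/-- the small sets: the `z` separated from `x` in a coordinate with `ε = true`, such that the level
of `y → z` is at least that of `x → y` -/
def SS (C : Fin k → SimpleGraph V) (ε : Fin k → Bool) (D : V → V → Prop) (N M : ℕ) (x y : V) :
    Set V :=
  {z | D x y ∧ D y z ∧ ∃ s, ε s = true ∧ ¬ (C s).Adj x z ∧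
    ∀ (t : Fin k) (j : Fin (M + 1)), Lev D (C s) (C t) N j x y → Lev D (C s) (C t) N j y z}

theorem ss_small [Fintype V] {C : Fin k → SimpleGraph V} {f : Fin k → V → ℕ} {G : SimpleGraph V}
    {ε : Fin k → Bool} {D : V → V → Prop} {N M w : ℕ} (hf : ∀ i, PEO (C i) (f i))
    (hG : ∀ x y, G.Adj x y → ∀ i, (C i).Adj x y)
    (hG' : ∀ x y, x ≠ y → (∀ i, (C i).Adj x y) → G.Adj x y)
    (hw : ∀ S : Finset V, G.IsClique (S : Set V) → S.card ≤ w)
    (hD : ∀ x y, D x y → G.Adj x y)
    (hF : ∀ x y, D x y → ∀ i, ε i = false → f i y < f i x)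
    (hLev : ∀ s t, ε s = true → ε t = true → ∀ x y, ¬ Lev D (C s) (C t) N M x y) (x y : V) :
    (SS C ε D N M x y).ncard ≤ k * ((N + 1) ^ k * w) := by
  classical
  let Z : Fin k → Set V := fun s => {z | D x y ∧ D y z ∧ ε s = true ∧ ¬ (C s).Adj x z ∧
    ∀ (t : Fin k) (j : Fin (M + 1)), Lev D (C s) (C t) N j x y → Lev D (C s) (C t) N j y z}
  have hsub : SS C ε D N M x y ⊆ ⋃ s ∈ (univ : Finset (Fin k)), Z s := by
    rintro z ⟨h1, h2, s, h3, h4, h5⟩
    simp only [mem_univ, Set.iUnion_true, Set.mem_iUnion]
    exact ⟨s, h1, h2, h3, h4, h5⟩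
  refine (Set.ncard_le_ncard hsub (Set.toFinite _)).trans ?_
  refine (Finset.set_ncard_biUnion_le _ _).trans ?_
  have hZ : ∀ s, (Z s).ncard ≤ (N + 1) ^ k * w := by
    intro s
    by_contra hcon
    push Not at hcon
    rw [Set.ncard_eq_toFinset_card'] at hcon
    set I : Finset (Fin k) := univ.filter (fun i => ε i = true) with hI
    have hIk : I.card ≤ k := by
      have := card_le_univ I
      rwa [Fintype.card_fin] at this
    have h1 : N ^ I.card * w < (Z s).toFinset.card := by
      refine lt_of_le_of_lt (Nat.mul_le_mul_right w ?_) hcon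
      exact (Nat.pow_le_pow_left (Nat.le_succ N) _).trans
        (Nat.pow_le_pow_right (Nat.succ_pos N) hIk)
    rcases ram_many hf w N I _ h1 with ⟨t, ht, S, hS, h2, h3⟩ | ⟨S, hS, h2, h3⟩
    · have hS' : ∀ z ∈ S, z ∈ Z s := fun z hz => by
        have := hS hz
        rwa [Set.mem_toFinset] at this
      have hne : S.Nonempty := card_pos.1 (by omega)
      obtain ⟨z0, hz0⟩ := hne
      have hall : ∀ j ≤ M, Lev D (C s) (C t) N j x y := by
        intro j
        induction j with
        | zero => exact fun _ => (hS' z0 hz0).1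
        | succ j ih =>
          intro hj
          refine ⟨(hS' z0 hz0).1, S, by omega, fun z hz => ⟨?_, (hS' z hz).2.2.2.1⟩, h3⟩
          exact (hS' z hz).2.2.2.2 t ⟨j, by omega⟩ (ih (by omega))
      have hεt : ε t = true := by
        rw [hI, mem_filter] at ht
        exact ht.2
      exact hLev s t (hS' z0 hz0).2.2.1 hεt x y (hall M le_rfl)
    · have hS' : ∀ z ∈ S, z ∈ Z s := fun z hz => by
        have := hS hz
        rwa [Set.mem_toFinset] at this
      have := hw S (by
        intro z hz z' hz' hne
        refine hG' z z' hne fun i => ?_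
        by_cases hi : ε i = true
        · exact h3 z hz z' hz' hne i (by rw [hI, mem_filter]; exact ⟨mem_univ i, hi⟩)
        · have hi' : ε i = false := by simpa using hi
          have d1 := (hS' z hz).2.1
          have d2 := (hS' z' hz').2.1
          exact (hf i).cl z z' y (hF _ _ d1 i hi') (hF _ _ d2 i hi') (hG _ _ (hD _ _ d1) i).symm
            (hG _ _ (hD _ _ d2) i).symm hne)
      omega
  calc ∑ s : Fin k, (Z s).ncard ≤ ∑ _s : Fin k, (N + 1) ^ k * w := sum_le_sum fun s _ => hZ s
    _ = k * ((N + 1) ^ k * w) := by simp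

/-- the edges of type `ε`, oriented by `e` -/
def DE (G : SimpleGraph V) (f : Fin k → V → ℕ) (e : V → ℕ) (ε : Fin k → Bool) (x y : V) : Prop :=
  G.Adj x y ∧ e x < e y ∧ ∀ i, (f i x < f i y ↔ ε i = true)

/-- the type of the colours -/
def Clr (k M : ℕ) : Type :=
  (Fin k → Fin k → Fin (M + 1) → Bool) × (Fin k → Fin k → Fin (M + 1) → Bool)

instance (k M : ℕ) : Fintype (Clr k M) :=
  inferInstanceAs (Fintype ((Fin k → Fin k → Fin (M + 1) → Bool) ×
    (Fin k → Fin k → Fin (M + 1) → Bool)))

open Classical in
/-- the colours of the pairs -/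
noncomputable def colr (C : Fin k → SimpleGraph V) (D : V → V → Prop) (N M : ℕ) (x y : V) :
    Clr k M :=
  (fun s t j => decide (Lev D (C s) (C t) N j x y),
    fun s t j => decide (Lev (fun a b => D b a) (C s) (C t) N j y x))

/-- the bound for the edges of one type -/
noncomputable def bnd (k N M w : ℕ) : ℕ :=
  up (k * ((N + 1) ^ k * w)) (3 * 2 ^ w)
    (Fintype.card (Fin (3 * 2 ^ w + 1) → Fin (3 * 2 ^ w + 1) → Clr k M))

theorem col_type [Fintype V] {C : Fin k → SimpleGraph V} {f : Fin k → V → ℕ} {G : SimpleGraph V}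
    (e : V → ℕ) (ε : Fin k → Bool) {N M w : ℕ} (hf : ∀ i, PEO (C i) (f i))
    (hG : ∀ x y, G.Adj x y → ∀ i, (C i).Adj x y)
    (hG' : ∀ x y, x ≠ y → (∀ i, (C i).Adj x y) → G.Adj x y)
    (hw : ∀ S : Finset V, G.IsClique (S : Set V) → S.card ≤ w)
    (hLev : ∀ (D : V → V → Prop) (Cs Ct : SimpleGraph V) (fs ft : V → ℕ),
      (∀ x y, D x y → G.Adj x y) → PEO Cs fs → PEO Ct ft → G ≤ Cs → G ≤ Ct →
      (∀ x y, D x y → fs x < fs y) → (∀ x y, D x y → ft x < ft y) →
      ∀ x y, ¬ Lev D Cs Ct N M x y) :
    Col (DE G f e ε) (bnd k N M w) := by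
  classical
  by_contra hcon
  set D := DE G f e ε with hDdef
  have hD : ∀ x y, D x y → G.Adj x y := fun x y h => h.1
  have hup : ∀ x y, D x y → ∀ i, ε i = true → f i x < f i y := fun x y h i hi => (h.2.2 i).2 hi
  have hdn : ∀ x y, D x y → ∀ i, ε i = false → f i y < f i x := by
    intro x y h i hi
    have h1 : ¬ f i x < f i y := fun h2 => by
      have := (h.2.2 i).1 h2
      rw [hi] at this
      exact absurd this (by simp)
    have h2 : f i x ≠ f i y := fun h3 => h.1.ne ((hf i).inj h3)
    omega
  have hcl : ∀ x y z, D x y → D y z → (∀ i, (C i).Adj x z) → D x z := by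
    intro x y z hxy hyz h
    have hlt := hxy.2.1.trans hyz.2.1
    refine ⟨hG' x z (fun h1 => ?_) h, hlt, fun i => ?_⟩
    · rw [h1] at hlt
      exact lt_irrefl _ hlt
    · cases hi : ε i
      · have h1 := hdn x y hxy i hi
        have h2 := hdn y z hyz i hi
        constructor
        · intro h3; omega
        · intro h3; exact absurd h3 (by simp)
      · exact ⟨fun _ => rfl, fun _ => (hup x y hxy i hi).trans (hup y z hyz i hi)⟩
  have hGC : ∀ i, G ≤ C i := fun i x y h => hG x y h i
  -- the small sets
  set R := k * ((N + 1) ^ k * w) with hR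
  have hS : ∀ x y, (SS C ε D N M x y).ncard ≤ R :=
    ss_small hf hG hG' hw hD hdn fun s t hs ht => hLev D (C s) (C t) (f s) (f t) hD (hf s) (hf t)
      (hGC s) (hGC t) (fun x y h => hup x y h s hs) fun x y h => hup x y h t ht
  have hT : ∀ y z, (SS C (fun i => !ε i) (fun a b => D b a) N M z y).ncard ≤ R := by
    intro y z
    refine ss_small (f := f) hf hG hG' hw (fun x y h => (hD _ _ h).symm) ?_ ?_ z y
    · intro x y h i hi
      exact hup y x h i (by simpa using hi)
    · intro s t hs ht
      exact hLev _ (C s) (C t) (f s) (f t) (fun x y h => (hD _ _ h).symm) (hf s) (hf t)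
        (hGC s) (hGC t) (fun x y h => hdn y x h s (by simpa using hs))
        fun x y h => hdn y x h t (by simpa using ht)
  -- the path
  set L := 2 ^ w with hL
  have hLw : w < L := Nat.lt_two_pow_self
  obtain ⟨v, v1, v2, v3⟩ := hom_path (D := D) (S := SS C ε D N M)
    (T := fun y z => SS C (fun i => !ε i) (fun a b => D b a) N M z y)
    (fun x h => lt_irrefl _ h.2.1) R hS hT (colr C D N M) (3 * L) hcon
  have hshift : ∀ r a b, a < b → b + r ≤ 3 * L + 1 →
      colr C D N M (v a) (v b) = colr C D N M (v (a + r)) (v (b + r)) := by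
    intro r
    induction r with
    | zero => intro a b _ _; rfl
    | succ r ih =>
      intro a b hab hb
      rw [ih a b hab (by omega)]
      exact v2 (a + r) (b + r) (by omega) (by omega)
  have hmono : ∀ i, ∀ a b, a < b → b ≤ 3 * L + 1 →
      (ε i = true → f i (v a) < f i (v b)) ∧ (ε i = false → f i (v b) < f i (v a)) := by
    intro i a b hab
    induction b, hab using Nat.le_induction with
    | base =>
      intro hb
      exact ⟨hup _ _ (v1 a (by omega)) i, hdn _ _ (v1 a (by omega)) i⟩
    | succ b hab ih =>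
      intro hb
      obtain ⟨h1, h2⟩ := ih (by omega)
      exact ⟨fun hi => (h1 hi).trans (hup _ _ (v1 b (by omega)) i hi),
        fun hi => (hdn _ _ (v1 b (by omega)) i hi).trans (h2 hi)⟩
  -- the powers of two
  have hpow : ∀ i a, a + 2 ^ i ≤ 3 * L → D (v a) (v (a + 2 ^ i)) := by
    intro i
    induction i with
    | zero =>
      intro a ha
      exact v1 a (by omega)
    | succ i ih =>
      intro a ha
      have hp : 2 ^ (i + 1) = 2 ^ i + 2 ^ i := by rw [pow_succ]; omega
      have hpos : 0 < 2 ^ i := Nat.two_pow_pos i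
      rw [hp] at ha ⊢
      rw [← Nat.add_assoc] at ha ⊢
      have h1 := ih a (by omega)
      have h2 := ih (a + 2 ^ i) ha
      have hc := hshift (2 ^ i) a (a + 2 ^ i) (by omega) (by omega)
      by_contra hno
      have h3 : ¬ ∀ i', (C i').Adj (v a) (v (a + 2 ^ i + 2 ^ i)) := fun h => hno (hcl _ _ _ h1 h2 h)
      push Not at h3
      obtain ⟨s, hs⟩ := h3
      obtain ⟨a1, a2⟩ := v3 a (a + 2 ^ i) (a + 2 ^ i + 2 ^ i) (by omega) (by omega) ha
      cases hεs : ε s
      · refine a2 ⟨h2, h1, s, by simp [hεs], fun h => hs h.symm, fun t j hl => ?_⟩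
        have := congrFun (congrFun (congrFun (congrArg Prod.snd hc) s) t) j
        simp only [colr, decide_eq_decide] at this
        exact this.2 hl
      · refine a1 ⟨h1, h2, s, hεs, hs, fun t j hl => ?_⟩
        have := congrFun (congrFun (congrFun (congrArg Prod.fst hc) s) t) j
        simp only [colr, decide_eq_decide] at this
        exact this.1 hl
  -- the window
  have hwin : ∀ a b, L ≤ a → a < b → b ≤ 2 * L → D (v a) (v b) := by
    intro a b ha hab
    induction b, hab using Nat.le_induction with
    | base => intro hb; exact v1 a (by omega)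
    | succ b hab ih =>
      intro hb
      have h1 := ih (by omega)
      have h2 := v1 b (by omega)
      by_contra hno
      have h3 : ¬ ∀ i', (C i').Adj (v a) (v (b + 1)) := fun h => hno (hcl _ _ _ h1 h2 h)
      push Not at h3
      obtain ⟨s, hs⟩ := h3
      cases hεs : ε s
      · -- backwards
        have hback : ∀ r, r ≤ a → ¬ (C s).Adj (v (a - r)) (v (b + 1)) := by
          intro r
          induction r with
          | zero => intro _; exact hs
          | succ r ih' =>
            intro hr hadj
            refine ih' (by omega) ?_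
            have e1 : a - r = a - (r + 1) + 1 := by omega
            have h4 := v1 (a - (r + 1)) (by omega)
            rw [← e1] at h4
            have h5 := (hmono s (a - (r + 1)) (b + 1) (by omega) (by omega)).2 hεs
            have h6 := (hmono s (a - r) (b + 1) (by omega) (by omega)).2 hεs
            refine (hf s).cl _ _ _ (hdn _ _ h4 s hεs) h5 (hG _ _ h4.1 s).symm hadj.symm
              fun h7 => ?_
            rw [h7] at h6
            exact lt_irrefl _ h6
        have h4 := hpow w (b + 1 - L) (by omega)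
        have e1 : b + 1 - L + 2 ^ w = b + 1 := by omega
        rw [e1] at h4
        have h5 := hback (a + L - (b + 1)) (by omega)
        have e2 : a - (a + L - (b + 1)) = b + 1 - L := by omega
        rw [e2] at h5
        exact h5 (hG _ _ h4.1 s)
      · -- forwards
        have hfor : ∀ r, b + 1 + r ≤ 3 * L → ¬ (C s).Adj (v a) (v (b + 1 + r)) := by
          intro r
          induction r with
          | zero => intro _; exact hs
          | succ r ih' =>
            intro hr hadj
            refine ih' (by omega) ?_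
            have h4 := v1 (b + 1 + r) (by omega)
            have h5 := (hmono s a (b + 1 + r) (by omega) (by omega)).1 hεs
            have h6 := hup _ _ h4 s hεs
            refine (hf s).cl _ _ _ (h5.trans h6) h6 hadj (hG _ _ h4.1 s) fun h7 => ?_
            rw [h7] at h5
            exact lt_irrefl _ h5
        have h4 := hpow w a (by omega)
        have h5 := hfor (a + L - (b + 1)) (by omega)
        have e2 : b + 1 + (a + L - (b + 1)) = a + L := by omega
        rw [e2] at h5
        exact h5 (hG _ _ h4.1 s)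
  -- a large clique
  have hcard := hw ((Finset.Icc L (2 * L)).image v) (by
    intro x hx y hy hxy
    rw [mem_coe, mem_image] at hx hy
    obtain ⟨a, ha, rfl⟩ := hx
    obtain ⟨b, hb, rfl⟩ := hy
    rw [mem_Icc] at ha hb
    rcases lt_trichotomy a b with h | h | h
    · exact (hwin a b ha.1 h hb.2).1
    · exact absurd (by rw [h]) hxy
    · exact (hwin b a hb.1 h ha.2).1.symm)
  rw [card_image_of_injOn (by
    intro a ha b hb hab
    rw [mem_coe, mem_Icc] at ha hb
    rcases lt_trichotomy a b with h | h | h
    · exact absurd hab (hwin a b ha.1 h hb.2).1.ne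
    · exact h
    · exact absurd hab.symm (hwin b a hb.1 h ha.2).1.ne), Nat.card_Icc] at hcard
  omega

/-- the Gyárfás–Sumner conjecture for intersections of `k` chordal graphs -/
theorem gs_chordal (k m : ℕ) (F : SimpleGraph (Fin m)) (hF : F.IsAcyclic) : ∃ g : ℕ → ℕ,
    ∀ (V : Type) [Finite V] (G : SimpleGraph V) (C : Fin k → SimpleGraph V),
      (∀ i, Pool.Agent.H255R3.STC.IsChordal (C i)) →
      (∀ x y, x ≠ y → (G.Adj x y ↔ ∀ i, (C i).Adj x y)) → ¬ F.IsIndContained G →
      G.Colorable (g G.cliqueNum) := by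
  classical
  obtain ⟨T, hT, ⟨ι⟩⟩ := Pool.Agent.H367R3.forest_in_tree F hF
  obtain ⟨N, hN⟩ := tree_of_lev m T hT
  refine ⟨fun w => (bnd k N m w) ^ (2 ^ k), fun V _ G C hC hGC hFG => ?_⟩
  cases nonempty_fintype V
  choose f hf using fun i => exists_peo (C i) (hC i)
  have hTG : ¬ T.IsIndContained G := by
    rintro ⟨φ⟩
    exact hFG ⟨ι.trans φ⟩
  set e : V → ℕ := fun v => (Fintype.equivFin V v : ℕ) with he
  set B := bnd k N m G.cliqueNum with hB
  have hcol : ∀ ε : Fin k → Bool, Col (DE G f e ε) B := fun ε =>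
    col_type e ε hf (fun x y h => (hGC x y h.ne).1 h) (fun x y hne h => (hGC x y hne).2 h)
      (fun S hS => hS.card_le_cliqueNum)
      (fun D Cs Ct fs ft h1 h2 h3 h4 h5 h6 h7 => hN V D Cs Ct G fs ft h1 h2 h3 h4 h5 h6 h7 hTG)
  choose c c1 c2 using hcol
  have hcard : B ^ (2 ^ k) = Fintype.card ((Fin k → Bool) → Fin B) := by simp
  show G.Colorable (B ^ (2 ^ k))
  rw [hcard]
  let κ : G.Coloring ((Fin k → Bool) → Fin B) :=
    SimpleGraph.Coloring.mk (fun v ε => ⟨c ε v, c1 ε v⟩) (by
      intro x y hxy heq
      have key : ∀ x y, G.Adj x y → e x < e y → (∀ ε, c ε x = c ε y) → False := by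
        intro x y hxy hlt h
        let ε : Fin k → Bool := fun i => decide (f i x < f i y)
        refine c2 ε x y ⟨hxy, hlt, fun i => ?_⟩ (h ε)
        simp [ε]
      have h1 : ∀ ε, c ε x = c ε y := fun ε => by
        have := congrFun heq ε
        simpa using this
      rcases lt_trichotomy (e x) (e y) with h | h | h
      · exact key x y hxy h h1
      · have : x = y := (Fintype.equivFin V).injective (Fin.ext h)
        exact hxy.ne this
      · exact key y x hxy.symm h fun ε => (h1 ε).symm)
  exact κ.colorable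

end Pool.Agent.T9h70.Chd
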