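import Pool.Agent.T9h70.Box.Basic

set_option autoImplicit false

namespace Pool.Agent.T9h70.Chd

open Finset Pool.Agent.T9h70.Box

/-! ### iterated line digraphs: paths whose pairs are coloured in a shift invariant way -/

theorem col_of_type {X α : Type} [Fintype α] (R : X → X → Prop) (c : X → α)
    (h : ∀ x y, R x y → c x ≠ c y) : Col R (Fintype.card α) :=
  ⟨fun x => (Fintype.equivFin α (c x) : ℕ), fun _ => Fin.isLt _, fun x y hxy heq =>
    h x y hxy ((Fintype.equivFin α).injective (Fin.ext heq))⟩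

theorem col_flip {X : Type} {R : X → X → Prop} {n : ℕ} (h : Col R n) :
    Col (fun x y => R y x) n := by
  obtain ⟨c, c1, c2⟩ := h
  exact ⟨c, c1, fun x y hxy heq => c2 y x hxy heq.symm⟩

variable {V : Type}

/-- the good paths with `n + 1` vertices: they avoid the small sets `S` and `T` -/
def Good (D : V → V → Prop) (S T : V → V → Set V) : (n : ℕ) → (Fin (n + 1) → V) → Prop
  | 0, _ => True
  | n + 1, v => Good D S T n (Fin.init v) ∧ Good D S T n (Fin.tail v) ∧
      D (v (Fin.last n).castSucc) (v (Fin.last (n + 1))) ∧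
      ∀ i : Fin n, v (Fin.last (n + 1)) ∉ S (v 0) (v i.succ.castSucc) ∧
        v 0 ∉ T (v i.succ.castSucc) (v (Fin.last (n + 1)))

/-- `q` continues `p` -/
def Ov (D : V → V → Prop) (S T : V → V → Set V) (n : ℕ) (p q : Fin (n + 1) → V) : Prop :=
  Good D S T n p ∧ Good D S T n q ∧ (∀ i : Fin n, p i.succ = q i.castSucc) ∧
    D (p (Fin.last n)) (q (Fin.last n))

def BadS (D : V → V → Prop) (S T : V → V → Set V) (n : ℕ) (p q : Fin (n + 1) → V) : Prop :=
  Ov D S T n p q ∧ ∃ i : Fin n, q (Fin.last n) ∈ S (p 0) (p i.succ)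

def BadT (D : V → V → Prop) (S T : V → V → Set V) (n : ℕ) (p q : Fin (n + 1) → V) : Prop :=
  Ov D S T n p q ∧ ∃ i : Fin n, p 0 ∈ T (p i.succ) (q (Fin.last n))

def Arc (D : V → V → Prop) (S T : V → V → Set V) (n : ℕ) (p q : Fin (n + 1) → V) : Prop :=
  Ov D S T n p q ∧ ∀ i : Fin n, q (Fin.last n) ∉ S (p 0) (p i.succ) ∧
    p 0 ∉ T (p i.succ) (q (Fin.last n))

variable {D : V → V → Prop} {S T : V → V → Set V}

theorem Arc.tail {n : ℕ} {p q : Fin (n + 1) → V} (h : Arc D S T n p q) :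
    Fin.tail (Fin.snoc (α := fun _ => V) p (q (Fin.last n))) = q := by
  funext i
  refine Fin.lastCases ?_ (fun j => ?_) i
  · show Fin.snoc (α := fun _ => V) p (q (Fin.last n)) (Fin.last n).succ = _
    rw [Fin.succ_last, Fin.snoc_last]
  · show Fin.snoc (α := fun _ => V) p (q (Fin.last n)) j.castSucc.succ = _
    rw [Fin.succ_castSucc, Fin.snoc_castSucc]
    exact h.1.2.2.1 j

theorem Arc.good {n : ℕ} {p q : Fin (n + 1) → V} (h : Arc D S T n p q) :
    Good D S T (n + 1) (Fin.snoc (α := fun _ => V) p (q (Fin.last n))) := by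
  refine ⟨?_, ?_, ?_, fun i => ?_⟩
  · rw [Fin.init_snoc]
    exact h.1.1
  · rw [h.tail]
    exact h.1.2.1
  · rw [Fin.snoc_castSucc, Fin.snoc_last]
    exact h.1.2.2.2
  · have h0 : (Fin.snoc (α := fun _ => V) p (q (Fin.last n)) : Fin (n + 2) → V) 0 = p 0 := by
      exact Fin.snoc_castSucc (α := fun _ => V) (q (Fin.last n)) p 0
    rw [h0, Fin.snoc_last, Fin.snoc_castSucc]
    exact h.2 i

/-- a colouring of the line digraph gives a colouring of the digraph -/
theorem col_line {n c : ℕ} (h : Col (Ov D S T (n + 1)) c) : Col (Arc D S T n) (2 ^ c) := by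
  classical
  obtain ⟨κ, k1, k2⟩ := h
  let K : (Fin (n + 1) → V) → Finset (Fin c) := fun p =>
    univ.filter fun a => ∃ v, Good D S T (n + 1) v ∧ Fin.init v = p ∧ κ v = a
  have := col_of_type (Arc D S T n) K (fun p q hpq heq => by
    set v := Fin.snoc (α := fun _ => V) p (q (Fin.last n)) with hv
    have hg : Good D S T (n + 1) v := hpq.good
    have ht : Fin.tail v = q := hpq.tail
    have hi : Fin.init v = p := Fin.init_snoc _ _
    have hmem : (⟨κ v, k1 v⟩ : Fin c) ∈ K p := by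
      simp only [K, mem_filter, mem_univ, true_and]
      exact ⟨v, hg, hi, rfl⟩
    rw [heq] at hmem
    simp only [K, mem_filter, mem_univ, true_and] at hmem
    obtain ⟨v', g', i', e'⟩ := hmem
    refine k2 v v' ⟨hg, g', ?_, ?_⟩ e'.symm
    · intro i
      have h1 : v i.succ = q i := congrFun ht i
      have h2 : v' i.castSucc = q i := congrFun i' i
      rw [h1, h2]
    · have h1 : v (Fin.last (n + 1)) = q (Fin.last n) := by rw [hv, Fin.snoc_last]
      have h2 : v' (Fin.last n).castSucc = q (Fin.last n) := congrFun i' (Fin.last n)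
      have h3 := g'.2.2.1
      rw [h2] at h3
      rw [h1]
      exact h3)
  simpa using this

theorem col_badS [Fintype V] (hirr : ∀ x, ¬ D x x) (M : ℕ) (hS : ∀ x y, (S x y).ncard ≤ M)
    (n : ℕ) : Col (BadS D S T n) (2 * (n * M) + 1) := by
  classical
  refine col_outdeg _ (fun p hp => hirr _ hp.1.2.2.2) _ fun p => ?_
  have hsub : {q | BadS D S T n p q} ⊆ (fun x : V => fun j : Fin (n + 1) =>
      if h : (j : ℕ) < n then p (Fin.succ ⟨j, h⟩) else x) '' (⋃ i ∈ (univ : Finset (Fin n)), S (p 0) (p i.succ)) := by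
    rintro q ⟨h1, i, hi⟩
    refine ⟨q (Fin.last n), ?_, ?_⟩
    · simp only [mem_univ, Set.iUnion_true, Set.mem_iUnion]
      exact ⟨i, hi⟩
    · funext j
      refine Fin.lastCases ?_ (fun j => ?_) j
      · simp
      · simp only [Fin.val_castSucc, Fin.is_lt, dite_true, Fin.eta]
        exact h1.2.2.1 j
  refine (Set.ncard_le_ncard hsub (Set.toFinite _)).trans
    ((Set.ncard_image_le (Set.toFinite _)).trans ?_)
  refine (Finset.set_ncard_biUnion_le _ _).trans ?_
  calc ∑ i : Fin n, (S (p 0) (p i.succ)).ncard ≤ ∑ _i : Fin n, M :=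
        sum_le_sum fun i _ => hS _ _
    _ = n * M := by simp

theorem col_badT [Fintype V] (hirr : ∀ x, ¬ D x x) (M : ℕ) (hT : ∀ x y, (T x y).ncard ≤ M)
    (n : ℕ) : Col (BadT D S T n) (2 * (n * M) + 1) := by
  classical
  refine col_flip (R := fun q p => BadT D S T n p q) ?_
  refine col_outdeg _ (fun p hp => hirr _ hp.1.2.2.2) _ fun q => ?_
  have hsub : {p | BadT D S T n p q} ⊆ (fun x : V => fun j : Fin (n + 1) =>
      if h : 0 < (j : ℕ) then q (Fin.castSucc ⟨(j : ℕ) - 1, by omega⟩) else x) ''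
      (⋃ i ∈ (univ : Finset (Fin n)), T (q i.castSucc) (q (Fin.last n))) := by
    rintro p ⟨h1, i, hi⟩
    refine ⟨p 0, ?_, ?_⟩
    · simp only [mem_univ, Set.iUnion_true, Set.mem_iUnion]
      refine ⟨i, ?_⟩
      rw [← h1.2.2.1 i]
      exact hi
    · funext j
      refine Fin.cases ?_ (fun j => ?_) j
      · simp
      · simp only [Fin.val_succ, Nat.succ_pos, dite_true, Nat.add_sub_cancel, Fin.eta]
        exact (h1.2.2.1 j).symm
  refine (Set.ncard_le_ncard hsub (Set.toFinite _)).trans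
    ((Set.ncard_image_le (Set.toFinite _)).trans ?_)
  refine (Finset.set_ncard_biUnion_le _ _).trans ?_
  calc ∑ i : Fin n, (T (q i.castSucc) (q (Fin.last n))).ncard ≤ ∑ _i : Fin n, M :=
        sum_le_sum fun i _ => hT _ _
    _ = n * M := by simp

theorem col_ov [Fintype V] (hirr : ∀ x, ¬ D x x) (M : ℕ) (hS : ∀ x y, (S x y).ncard ≤ M)
    (hT : ∀ x y, (T x y).ncard ≤ M) (n c : ℕ) (h : Col (Arc D S T n) c) :
    Col (Ov D S T n) (c * ((2 * (n * M) + 1) * (2 * (n * M) + 1))) := by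
  classical
  refine (h.prod ((col_badS (T := T) hirr M hS n).prod (col_badT (S := S) hirr M hT n))).mono ?_ le_rfl
  intro p q hpq
  by_cases h1 : ∃ i : Fin n, q (Fin.last n) ∈ S (p 0) (p i.succ)
  · exact Or.inr (Or.inl ⟨hpq, h1⟩)
  · by_cases h2 : ∃ i : Fin n, p 0 ∈ T (p i.succ) (q (Fin.last n))
    · exact Or.inr (Or.inr ⟨hpq, h2⟩)
    · left
      push Not at h1 h2
      exact ⟨hpq, fun i => ⟨h1 i, h2 i⟩⟩

/-- the bound -/
def up (M : ℕ) : ℕ → ℕ → ℕ
  | 0, c => c
  | n + 1, c => up M n (2 ^ c * ((2 * (n * M) + 1) * (2 * (n * M) + 1)))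

theorem col_up [Fintype V] (hirr : ∀ x, ¬ D x x) (M : ℕ) (hS : ∀ x y, (S x y).ncard ≤ M)
    (hT : ∀ x y, (T x y).ncard ≤ M) : ∀ (n c : ℕ), Col (Ov D S T n) c → Col D (up M n c) := by
  intro n
  induction n with
  | zero =>
    rintro c ⟨κ, k1, k2⟩
    refine ⟨fun v => κ fun _ => v, fun v => k1 _, fun x y hxy => ?_⟩
    exact k2 _ _ ⟨trivial, trivial, fun i => i.elim0, hxy⟩
  | succ n ih =>
    intro c hc
    exact ih _ (col_ov hirr M hS hT n _ (col_line hc))

theorem Good.adj : ∀ {n : ℕ} {v : Fin (n + 1) → V}, Good D S T n v → ∀ (a : ℕ) (ha : a < n),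
    D (v ⟨a, by omega⟩) (v ⟨a + 1, by omega⟩)
  | 0, _, _, a, ha => absurd ha (Nat.not_lt_zero a)
  | n + 1, v, h, a, ha => by
    rcases Nat.lt_succ_iff_lt_or_eq.1 ha with h1 | h1
    · exact Good.adj h.1 a h1
    · subst h1
      exact h.2.2.1

theorem Good.avoid : ∀ {n : ℕ} {v : Fin (n + 1) → V}, Good D S T n v →
    ∀ (a b c : ℕ) (hab : a < b) (hbc : b < c) (hc : c < n + 1),
      v ⟨c, hc⟩ ∉ S (v ⟨a, by omega⟩) (v ⟨b, by omega⟩) ∧
      v ⟨a, by omega⟩ ∉ T (v ⟨b, by omega⟩) (v ⟨c, hc⟩)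
  | 0, _, _, a, b, c, hab, hbc, hc => by omega
  | n + 1, v, h, a, b, c, hab, hbc, hc => by
    by_cases h1 : c < n + 1
    · exact Good.avoid h.1 a b c hab hbc h1
    · obtain rfl : c = n + 1 := by omega
      rcases a with _ | a
      · obtain ⟨i, rfl⟩ : ∃ i, b = i + 1 := ⟨b - 1, by omega⟩
        exact h.2.2.2 ⟨i, by omega⟩
      · obtain ⟨i, rfl⟩ : ∃ i, b = i + 1 := ⟨b - 1, by omega⟩
        exact Good.avoid h.2.1 a i n (by omega) (by omega) (by omega)

/-- If `D` has large chromatic number, then for every colouring of the pairs and all sets `S`, `T`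
of bounded size, there is a directed path whose pairs are coloured in a shift invariant way and
which avoids the sets. -/
theorem hom_path [Fintype V] {α : Type} [Fintype α] (hirr : ∀ x, ¬ D x x) (M : ℕ)
    (hS : ∀ x y, (S x y).ncard ≤ M) (hT : ∀ x y, (T x y).ncard ≤ M) (col : V → V → α) (n : ℕ)
    (hD : ¬ Col D (up M n (Fintype.card (Fin (n + 1) → Fin (n + 1) → α)))) :
    ∃ v : ℕ → V, (∀ a ≤ n, D (v a) (v (a + 1))) ∧
      (∀ a b, a < b → b ≤ n → col (v a) (v b) = col (v (a + 1)) (v (b + 1))) ∧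
      (∀ a b c, a < b → b < c → c ≤ n → v c ∉ S (v a) (v b) ∧ v a ∉ T (v b) (v c)) := by
  classical
  obtain ⟨p, q, hpq, heq⟩ : ∃ p q : Fin (n + 1) → V, Ov D S T n p q ∧
      (fun i j => col (p i) (p j)) = fun i j => col (q i) (q j) := by
    by_contra hcon
    push Not at hcon
    exact hD (col_up hirr M hS hT n _ (col_of_type (Ov D S T n)
      (fun (p : Fin (n + 1) → V) i j => col (p i) (p j)) fun p q hpq => hcon p q hpq))
  let v : ℕ → V := fun i => if h : i < n + 1 then p ⟨i, h⟩ else q (Fin.last n)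
  have hv : ∀ (a : ℕ) (ha : a < n + 1), v a = p ⟨a, ha⟩ := fun a ha => dif_pos ha
  have hv' : ∀ (a : ℕ) (ha : a < n + 1), v (a + 1) = q ⟨a, ha⟩ := by
    intro a ha
    by_cases h : a + 1 < n + 1
    · rw [hv _ h]
      exact hpq.2.2.1 ⟨a, by omega⟩
    · obtain rfl : a = n := by omega
      exact dif_neg h
  refine ⟨v, fun a ha => ?_, fun a b hab hb => ?_, fun a b c hab hbc hc => ?_⟩
  · rcases Nat.lt_or_eq_of_le ha with h | h
    · rw [hv a (by omega), hv (a + 1) (by omega)]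
      exact hpq.1.adj a h
    · subst h
      rw [hv a (by omega), hv' a (by omega)]
      exact hpq.2.2.2
  · rw [hv a (by omega), hv b (by omega), hv' a (by omega), hv' b (by omega)]
    exact congrFun (congrFun heq ⟨a, by omega⟩) ⟨b, by omega⟩
  · rw [hv a (by omega), hv b (by omega), hv c (by omega)]
    exact hpq.1.avoid a b c hab hbc (by omega)

end Pool.Agent.T9h70.Chd
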