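import Pool.Agent.H255R3.STC.Chordal

set_option autoImplicit false

namespace Pool.Agent.T9h70.Chd

open Finset

/-- `f` is a perfect elimination ordering of `C`: the earlier neighbours of every vertex form a
clique -/
structure PEO {V : Type} (C : SimpleGraph V) (f : V → ℕ) : Prop where
  inj : Function.Injective f
  cl : ∀ x y z, f x < f z → f y < f z → C.Adj x z → C.Adj y z → x ≠ y → C.Adj x y

theorem exists_peo_on {V : Type} [Fintype V] (C : SimpleGraph V)
    (hC : Pool.Agent.H255R3.STC.IsChordal C) : ∀ (n : ℕ) (s : Finset V), s.card = n →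
    ∃ f : V → ℕ, (∀ x ∈ s, f x < n) ∧ (∀ x ∈ s, ∀ y ∈ s, f x = f y → x = y) ∧
      ∀ x ∈ s, ∀ y ∈ s, ∀ z ∈ s, f x < f z → f y < f z → C.Adj x z → C.Adj y z → x ≠ y →
        C.Adj x y := by
  classical
  intro n
  induction n with
  | zero =>
    intro s hs
    rw [card_eq_zero] at hs
    subst hs
    exact ⟨fun _ => 0, by simp, by simp, by simp⟩
  | succ n ih =>
    intro s hs
    obtain ⟨z, hz, hsim⟩ : ∃ z ∈ s, ∀ a ∈ s, ∀ b ∈ s, C.Adj z a → C.Adj z b → a ≠ b →
        C.Adj a b := by
      by_cases h : ∀ a ∈ s, ∀ b ∈ s, a ≠ b → C.Adj a b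
      · obtain ⟨z, hz⟩ := card_pos.1 (by omega : 0 < s.card)
        exact ⟨z, hz, fun a ha b hb _ _ hab => h a ha b hb hab⟩
      · push Not at h
        obtain ⟨a, ha, b, hb, hab, hna⟩ := h
        obtain ⟨z, hz, -, -, h4⟩ := Pool.Agent.H255R3.STC.exists_simplicial hC _ s le_rfl a ha b hb
          hab.symm hna
        exact ⟨z, hz, h4⟩
    obtain ⟨f, f1, f2, f3⟩ := ih (s.erase z) (by rw [card_erase_of_mem hz]; omega)
    refine ⟨fun x => if x = z then n else f x, fun x hx => ?_, fun x hx y hy hxy => ?_,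
      fun x hx y hy w hw hxw hyw axw ayw hne => ?_⟩
    · simp only
      split_ifs with h
      · omega
      · have := f1 x (mem_erase.2 ⟨h, hx⟩)
        omega
    · simp only at hxy
      split_ifs at hxy with h1 h2 h2
      · rw [h1, h2]
      · have := f1 y (mem_erase.2 ⟨h2, hy⟩)
        omega
      · have := f1 x (mem_erase.2 ⟨h1, hx⟩)
        omega
      · exact f2 x (mem_erase.2 ⟨h1, hx⟩) y (mem_erase.2 ⟨h2, hy⟩) hxy
    · by_cases hwz : w = z
      · subst hwz
        exact hsim x hx y hy axw.symm ayw.symm hne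
      · have hw' := f1 w (mem_erase.2 ⟨hwz, hw⟩)
        simp only [hwz, if_false] at hxw hyw
        have hxz : x ≠ z := by
          rintro rfl
          simp at hxw
          omega
        have hyz : y ≠ z := by
          rintro rfl
          simp at hyw
          omega
        simp only [hxz, hyz, if_false] at hxw hyw
        exact f3 x (mem_erase.2 ⟨hxz, hx⟩) y (mem_erase.2 ⟨hyz, hy⟩) w (mem_erase.2 ⟨hwz, hw⟩)
          hxw hyw axw ayw hne

theorem exists_peo {V : Type} [Fintype V] (C : SimpleGraph V)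
    (hC : Pool.Agent.H255R3.STC.IsChordal C) : ∃ f : V → ℕ, PEO C f := by
  obtain ⟨f, -, f2, f3⟩ := exists_peo_on C hC _ univ rfl
  exact ⟨f, fun x y h => f2 x (mem_univ x) y (mem_univ y) h, fun x y z =>
    f3 x (mem_univ x) y (mem_univ y) z (mem_univ z)⟩

/-- chordal graphs: a large set contains a large independent set or a large clique -/
theorem ram_one {V : Type} {C : SimpleGraph V} {f : V → ℕ} (hf : PEO C f) (m : ℕ) :
    ∀ (q : ℕ) (Z : Finset V), q * m < Z.card →
    (∃ S ⊆ Z, S.card = q + 1 ∧ ∀ x ∈ S, ∀ y ∈ S, x ≠ y → ¬ C.Adj x y) ∨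
    (∃ S ⊆ Z, m < S.card ∧ ∀ x ∈ S, ∀ y ∈ S, x ≠ y → C.Adj x y) := by
  classical
  intro q
  induction q with
  | zero =>
    intro Z hZ
    obtain ⟨z, hz⟩ := card_pos.1 (lt_of_le_of_lt (Nat.zero_le _) hZ)
    left
    refine ⟨{z}, by simpa using hz, by simp, ?_⟩
    intro x hx y hy hxy
    rw [mem_singleton] at hx hy
    exact absurd (hx.trans hy.symm) hxy
  | succ q ih =>
    intro Z hZ
    have hne : Z.Nonempty := card_pos.1 (lt_of_le_of_lt (Nat.zero_le _) hZ)
    obtain ⟨z0, hz0, hmax⟩ := exists_max_image Z f hne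
    have hlt : ∀ x ∈ Z, x ≠ z0 → f x < f z0 := fun x hx hxz =>
      lt_of_le_of_ne (hmax x hx) fun h => hxz (hf.inj h)
    by_cases hA : m < (Z.filter (fun z => z = z0 ∨ C.Adj z z0)).card
    · right
      refine ⟨_, filter_subset _ _, hA, ?_⟩
      intro x hx y hy hxy
      rw [mem_filter] at hx hy
      rcases hx.2 with h1 | h1
      · rcases hy.2 with h2 | h2
        · exact absurd (h1.trans h2.symm) hxy
        · rw [h1]
          exact h2.symm
      · rcases hy.2 with h2 | h2
        · rw [h2]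
          exact h1
        · exact hf.cl x y z0 (hlt x hx.1 h1.ne) (hlt y hy.1 h2.ne) h1 h2 hxy
    · have hc : q * m < (Z.filter (fun z => ¬ (z = z0 ∨ C.Adj z z0))).card := by
        have := card_filter_add_card_filter_not (s := Z) (fun z => z = z0 ∨ C.Adj z z0)
        rw [Nat.add_mul, one_mul] at hZ
        omega
      rcases ih _ hc with ⟨S, hSZ, hS, hdis⟩ | ⟨S, hSZ, hS, hint⟩
      · left
        have hz0S : z0 ∉ S := fun h => (mem_filter.1 (hSZ h)).2 (Or.inl rfl)
        refine ⟨insert z0 S, ?_, by rw [card_insert_of_notMem hz0S, hS], ?_⟩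
        · intro x hx
          rcases mem_insert.1 hx with rfl | hx
          · exact hz0
          · exact (mem_filter.1 (hSZ hx)).1
        · intro x hx y hy hxy
          rcases mem_insert.1 hx with h1 | h1 <;> rcases mem_insert.1 hy with h2 | h2
          · exact absurd (h1.trans h2.symm) hxy
          · rw [h1]
            exact fun h => (mem_filter.1 (hSZ h2)).2 (Or.inr h.symm)
          · rw [h2]
            exact fun h => (mem_filter.1 (hSZ h1)).2 (Or.inr h)
          · exact hdis x h1 y h2 hxy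
      · right
        exact ⟨S, hSZ.trans (filter_subset _ _), hS, hint⟩

theorem ram_many {V : Type} {k : ℕ} {C : Fin k → SimpleGraph V} {f : Fin k → V → ℕ}
    (hf : ∀ i, PEO (C i) (f i)) (w q : ℕ) (I : Finset (Fin k)) :
    ∀ Z : Finset V, q ^ I.card * w < Z.card →
    (∃ t ∈ I, ∃ S ⊆ Z, S.card = q + 1 ∧ ∀ x ∈ S, ∀ y ∈ S, x ≠ y → ¬ (C t).Adj x y) ∨
    (∃ S ⊆ Z, w < S.card ∧ ∀ x ∈ S, ∀ y ∈ S, x ≠ y → ∀ i ∈ I, (C i).Adj x y) := by
  classical
  induction I using Finset.induction_on with
  | empty =>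
    intro Z hZ
    right
    exact ⟨Z, subset_rfl, by simpa using hZ, by simp⟩
  | insert i I hi ih =>
    intro Z hZ
    rw [card_insert_of_notMem hi, pow_succ, mul_right_comm, mul_comm] at hZ
    rcases ram_one (hf i) _ q Z hZ with ⟨S, hSZ, hS, hdis⟩ | ⟨S, hSZ, hS, hint⟩
    · left
      exact ⟨i, mem_insert_self _ _, S, hSZ, hS, hdis⟩
    · rcases ih S hS with ⟨t, ht, S', hS', h1, h2⟩ | ⟨S', hS', h1, h2⟩
      · exact Or.inl ⟨t, mem_insert_of_mem ht, S', hS'.trans hSZ, h1, h2⟩
      · right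
        refine ⟨S', hS'.trans hSZ, h1, ?_⟩
        intro x hx y hy hxy j hj
        rcases mem_insert.1 hj with rfl | hj
        · exact hint x (hS' hx) y (hS' hy) hxy
        · exact h2 x hx y hy hxy j hj

end Pool.Agent.T9h70.Chd
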